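import Pool.Agent.H84.Sym.Defs

/-!
# Module M2 of project SYM: bodies with orthogonal symmetries

The statements of the other modules are hypotheses here; see `Pool.Agent.H18.Sym.M2`.
-/

set_option autoImplicit false
set_option linter.unusedSectionVars false

open MeasureTheory Set Filter Topology
open scoped ContDiff Pointwise

namespace Pool.Agent.H84.Sym

open Pool.Agent.H84

variable {E : Type*} [NormedAddCommGroup E] [InnerProductSpace ℝ E]
    [FiniteDimensional ℝ E] [MeasurableSpace E] [BorelSpace E]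
variable {ι : Type*} [Fintype ι]

/-- The statement of `pot_main` for the space `E`. -/
def PotMainSt (E : Type*) [NormedAddCommGroup E] [InnerProductSpace ℝ E]
    [FiniteDimensional ℝ E] [MeasurableSpace E] [BorelSpace E] : Prop :=
  ∀ {U : E → ℝ} {t C β : ℝ} {m : ℕ}, Pot U t C → IsProbabilityMeasure (mu U) →
    ∀ {G : Set (E ≃ₗᵢ[ℝ] E)}, G.Finite →
    (∀ g ∈ G, ∀ x, U (g x) = U x) → (∀ p : E, (∀ g ∈ G, g p = p) → p = 0) →
    1 ≤ m → 0 < β →
    (∀ g ∈ G, Module.finrank ℝ (Mv (g.toLinearEquiv : E →ₗ[ℝ] E)) ≤ m) →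
    (∀ g ∈ G, ∫ x, Real.exp (2 * β *
      ‖(Mv (g.toLinearEquiv : E →ₗ[ℝ] E)).orthogonalProjectionOnto x‖) ∂(mu U) ≤ 3) →
    GPC (mu U) (3120000 * m / β ^ 2)

/-- The statement of `exp_moment` for the set `K`. -/
def ExpMomentSt (K : Set E) : Prop :=
  ∀ (S : Submodule ℝ E) {T : ℝ}, 0 < T →
    ∫ x in K, ‖S.orthogonalProjectionOnto x‖ ^ 2 ≤ T ^ 2 * volume.real K →
    ∫ x in K, Real.exp (‖S.orthogonalProjectionOnto x‖ / (16 * T)) ≤ 2 * volume.real K

/-- The statement of `approx` for the set `K`. -/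
def ApproxSt (K : Set E) : Prop :=
  ∃ U : ℕ → E → ℝ,
    (∀ j, ∃ t C : ℝ, Pot (U j) t C) ∧ (∀ j, IsProbabilityMeasure (mu (U j))) ∧
    (∀ g : E ≃ₗᵢ[ℝ] E, g '' K = K → ∀ j x, U j (g x) = U j x) ∧
    ∀ F : E → ℝ, Continuous F → (∃ A B : ℝ, ∀ x, |F x| ≤ A * Real.exp (B * ‖x‖)) →
      Tendsto (fun j => ∫ x, F x ∂(mu (U j))) atTop (𝓝 ((∫ x in K, F x) / volume.real K))

/-- A `C^1` function with compact support which agrees with `f` near the closed ball. -/
private theorem exists_cut {f : E → ℝ} (hf : ContDiff ℝ 1 f) (R : ℝ) :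
    ∃ f' : E → ℝ, ContDiff ℝ 1 f' ∧ HasCompactSupport f' ∧
      ∀ x ∈ Metric.closedBall (0 : E) R, f' x = f x ∧ fderiv ℝ f' x = fderiv ℝ f x := by
  set r : ℝ := |R| + 1 with hr
  have hr0 : 0 < r := by positivity
  let χ : ContDiffBump (0 : E) := ⟨r, r + 1, hr0, by linarith⟩
  refine ⟨fun x => χ x * f x, (χ.contDiff (n := 1)).mul hf, χ.hasCompactSupport.mul_right, ?_⟩
  intro x hx
  have hx' : x ∈ Metric.ball (0 : E) r := by
    rw [Metric.mem_closedBall, dist_zero_right] at hx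
    rw [Metric.mem_ball, dist_zero_right]
    have := le_abs_self R
    linarith
  have hev : (fun y => χ y * f y) =ᶠ[𝓝 x] f := by
    filter_upwards [Metric.isOpen_ball.mem_nhds hx'] with y hy
    have : χ y = 1 := χ.one_of_mem_closedBall (Metric.ball_subset_closedBall hy)
    rw [this, one_mul]
  exact ⟨hev.eq_of_nhds, hev.fderiv_eq⟩

private theorem growth_of_cpt {F : E → ℝ} (hF : Continuous F) (hc : HasCompactSupport F) :
    ∃ A B : ℝ, ∀ x, |F x| ≤ A * Real.exp (B * ‖x‖) := by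
  obtain ⟨M, hM⟩ := hF.bounded_above_of_compact_support hc
  refine ⟨M, 0, fun x => ?_⟩
  rw [zero_mul, Real.exp_zero, mul_one]
  exact hM x

theorem body_poincare_of (pot_main : PotMainSt E) {K : Set E} {R : ℝ} (hK : CB K R)
    (exp_moment : ExpMomentSt K) (approx : ApproxSt K) {G : Set (E ≃ₗᵢ[ℝ] E)}
    (exists_finite : ∃ G' ⊆ G, G'.Finite ∧ ∀ p : E, (∀ g ∈ G', g p = p) → p = 0)
    (hinv : ∀ g ∈ G, g '' K = K) {m : ℕ}
    (hm1 : 1 ≤ m) (hm : ∀ g ∈ G, Module.finrank ℝ (Mv (g.toLinearEquiv : E →ₗ[ℝ] E)) ≤ m)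
    {T : ℝ} (hT : 0 < T)
    (hmom : ∀ g ∈ G, ∫ x in K,
      ‖(Mv (g.toLinearEquiv : E →ₗ[ℝ] E)).orthogonalProjectionOnto x‖ ^ 2 ≤ T ^ 2 * volume.real K) :
    PC K (56600 * Real.sqrt m * T) := by
  obtain ⟨G', hG'G, hG'f, hfix'⟩ := exists_finite
  obtain ⟨U, hPot, hprob, hUinv, hlim⟩ := approx
  have hV0 : 0 < volume.real K := ENNReal.toReal_pos hK.vol0 hK.lt_top.ne
  set V := volume.real K with hV
  set β : ℝ := 1 / (32 * T) with hβ
  have hβ0 : 0 < β := by positivity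
  -- exponential moments
  have hmomj : ∀ g ∈ G', ∀ᶠ j in atTop, ∫ x, Real.exp (2 * β *
      ‖(Mv (g.toLinearEquiv : E →ₗ[ℝ] E)).orthogonalProjectionOnto x‖) ∂(mu (U j)) ≤ 3 := by
    intro g hg
    set S := Mv (g.toLinearEquiv : E →ₗ[ℝ] E) with hS
    have hc : Continuous (fun x : E => Real.exp (2 * β * ‖S.orthogonalProjectionOnto x‖)) := by
      fun_prop
    have hb : ∀ x : E, |Real.exp (2 * β * ‖S.orthogonalProjectionOnto x‖)|
        ≤ 1 * Real.exp ((2 * β) * ‖x‖) := by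
      intro x
      rw [abs_of_pos (Real.exp_pos _), one_mul]
      apply Real.exp_le_exp.2
      have := S.norm_orthogonalProjectionOnto_apply_le x
      gcongr
    have hl := hlim _ hc ⟨1, 2 * β, hb⟩
    have h2 : (∫ x in K, Real.exp (2 * β * ‖S.orthogonalProjectionOnto x‖)) / V ≤ 2 := by
      rw [div_le_iff₀ hV0]
      have h3 := exp_moment S hT (hmom g (hG'G hg))
      have h4 : ∀ x : E, 2 * β * ‖S.orthogonalProjectionOnto x‖
          = ‖S.orthogonalProjectionOnto x‖ / (16 * T) := by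
        intro x
        rw [hβ]
        field_simp
        ring
      simp only [h4]
      exact h3
    have h5 := hl.eventually_lt_const (u := 3) (by linarith)
    filter_upwards [h5] with j hj using hj.le
  have hev : ∀ᶠ j in atTop, ∀ g ∈ G', ∫ x, Real.exp (2 * β *
      ‖(Mv (g.toLinearEquiv : E →ₗ[ℝ] E)).orthogonalProjectionOnto x‖) ∂(mu (U j)) ≤ 3 :=
    (eventually_all_finite hG'f).2 hmomj
  set L : ℝ := 3120000 * m / β ^ 2 with hL
  have hgpc : ∀ᶠ j in atTop, GPC (mu (U j)) L := by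
    filter_upwards [hev] with j hj
    obtain ⟨t, C, hP⟩ := hPot j
    exact pot_main hP (hprob j) hG'f (fun g hg => hUinv g (hinv g (hG'G hg)) j) hfix' hm1 hβ0
      (fun g hg => hm g (hG'G hg)) hj
  -- the limit
  intro f hf
  obtain ⟨f', hf'1, hf'c, hf'e⟩ := exists_cut hf R
  have c0 : Continuous f' := hf'1.continuous
  have cd : Continuous (fun x => fderiv ℝ f' x) := hf'1.continuous_fderiv one_ne_zero
  have c1 : Continuous (fun x => f' x ^ 2) := c0.pow 2
  have c2 : Continuous (fun x => ‖fderiv ℝ f' x‖ ^ 2) := cd.norm.pow 2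
  have s1 : HasCompactSupport (fun x => f' x ^ 2) := by
    apply hf'c.comp_left (g := fun y : ℝ => y ^ 2)
    norm_num
  have s2 : HasCompactSupport (fun x => ‖fderiv ℝ f' x‖ ^ 2) := by
    apply (hf'c.fderiv (𝕜 := ℝ)).comp_left (g := fun y : E →L[ℝ] ℝ => ‖y‖ ^ 2)
    simp
  have l0 := hlim _ c0 (growth_of_cpt c0 hf'c)
  have l1 := hlim _ c1 (growth_of_cpt c1 s1)
  have l2 := hlim _ c2 (growth_of_cpt c2 s2)
  have hle : (∫ x in K, f' x ^ 2) / V - ((∫ x in K, f' x) / V) ^ 2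
      ≤ L * ((∫ x in K, ‖fderiv ℝ f' x‖ ^ 2) / V) := by
    refine le_of_tendsto_of_tendsto (l1.sub (l0.pow 2)) (l2.const_mul L) ?_
    filter_upwards [hgpc] with j hj
    have := hprob j
    have h := hj f' hf'1 hf'c
    rw [probReal_univ, one_mul, one_mul] at h
    exact h
  have e0 : ∫ x in K, f' x = ∫ x in K, f x :=
    setIntegral_congr_fun hK.meas fun x hx => (hf'e x (hK.sub hx)).1
  have e1 : ∫ x in K, f' x ^ 2 = ∫ x in K, f x ^ 2 :=
    setIntegral_congr_fun hK.meas fun x hx => by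
      show f' x ^ 2 = f x ^ 2
      rw [(hf'e x (hK.sub hx)).1]
  have e2 : ∫ x in K, ‖fderiv ℝ f' x‖ ^ 2 = ∫ x in K, ‖fderiv ℝ f x‖ ^ 2 :=
    setIntegral_congr_fun hK.meas fun x hx => by
      show ‖fderiv ℝ f' x‖ ^ 2 = ‖fderiv ℝ f x‖ ^ 2
      rw [(hf'e x (hK.sub hx)).2]
  rw [e0, e1, e2] at hle
  set A := ∫ x in K, f x ^ 2
  set B := ∫ x in K, f x
  set D := ∫ x in K, ‖fderiv ℝ f x‖ ^ 2 with hD
  have hD0 : 0 ≤ D := integral_nonneg fun x => by positivity
  have hLle : L ≤ (56600 * Real.sqrt m * T) ^ 2 := by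
    have hsq : Real.sqrt m ^ 2 = m := Real.sq_sqrt (Nat.cast_nonneg m)
    have h1 : (56600 * Real.sqrt m * T) ^ 2 = 3203560000 * (m : ℝ) * T ^ 2 := by
      rw [mul_pow, mul_pow, hsq]
      norm_num
    have h2 : L = 3194880000 * (m : ℝ) * T ^ 2 := by
      rw [hL, hβ]
      field_simp
      ring
    rw [h1, h2]
    have : 0 ≤ (m : ℝ) * T ^ 2 := by positivity
    nlinarith
  have h1 : V * A - B ^ 2 = V ^ 2 * (A / V - (B / V) ^ 2) := by
    field_simp
  have h2 : V ^ 2 * (L * (D / V)) = L * (V * D) := by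
    field_simp
  calc V * A - B ^ 2 = V ^ 2 * (A / V - (B / V) ^ 2) := h1
    _ ≤ V ^ 2 * (L * (D / V)) := by gcongr
    _ = L * (V * D) := h2
    _ ≤ (56600 * Real.sqrt m * T) ^ 2 * (V * D) := by
        have : 0 ≤ V * D := by positivity
        gcongr

end Pool.Agent.H84.Sym
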