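import Pool.Agent.H18.Sym.M2a
import Pool.Agent.H95.Sym.K
import Pool.Agent.H95.Sym.M1
import Pool.Agent.H54.Sym.L2

/-!
# Module M2 of project SYM: bodies with orthogonal symmetries, from the theorem for potentials
-/

set_option autoImplicit false

open MeasureTheory Set Filter Topology
open scoped ContDiff Pointwise

namespace Pool.Agent.H84.Sym

open Pool.Agent.H84

variable {E : Type*} [NormedAddCommGroup E] [InnerProductSpace ℝ E]
    [FiniteDimensional ℝ E] [MeasurableSpace E] [BorelSpace E]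

theorem body_poincare_of_pot (hpot : PotMainSt E) {K : Set E} {R : ℝ} (hK : CB K R)
    {G : Set (E ≃ₗᵢ[ℝ] E)}
    (hinv : ∀ g ∈ G, g '' K = K) (hfix : ∀ p : E, (∀ g ∈ G, g p = p) → p = 0) {m : ℕ}
    (hm1 : 1 ≤ m) (hm : ∀ g ∈ G, Module.finrank ℝ (Mv (g.toLinearEquiv : E →ₗ[ℝ] E)) ≤ m)
    {T : ℝ} (hT : 0 < T)
    (hmom : ∀ g ∈ G, ∫ x in K,
      ‖(Mv (g.toLinearEquiv : E →ₗ[ℝ] E)).orthogonalProjectionOnto x‖ ^ 2 ≤ T ^ 2 * volume.real K) :
    PC K (56600 * Real.sqrt m * T) := by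
  refine body_poincare_of hpot hK ?_ (approx hK) (exists_finite hfix) hinv hm1 hm hT hmom
  intro S T hT hm
  exact exp_moment hK S hT hm

end Pool.Agent.H84.Sym
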